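import Pool.Agent.U514.SP.Stm

set_option autoImplicit false

/-!
Project SP, package ASY: the exponent.
-/

namespace Pool.Agent.U83.SP.ASY

open Pool.Agent.U514.SP

theorem t_ASY : S_ASY := by
  intro cost Q σ A B hQ hσ hσQ hA hB h0 H
  have hQr : (1 : ℝ) ≤ Q := by exact_mod_cast hQ
  have hQ0 : (0 : ℝ) < Q := by linarith
  have hQ0' : 0 < Q := hQ
  set x : ℝ := σ / (Q : ℝ) ^ 3 with hx
  have hx0 : 0 < x := by positivity
  have hx1 : x < 1 := by rw [hx, div_lt_one (by positivity)]; exact hσQ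
  obtain ⟨E, hE2, hEQ, hEB⟩ : ∃ E : ℕ, 2 ≤ E ∧ Q * 65536 ≤ E ∧ B ^ 4 ≤ (E : ℝ) := by
    obtain ⟨m, hm⟩ := exists_nat_ge (B ^ 4)
    refine ⟨max (Q * 65536) m, ?_, le_max_left _ _, ?_⟩
    · have := le_max_left (Q * 65536) m; omega
    · exact hm.trans (by exact_mod_cast le_max_right _ _)
  have hEr : (2 : ℝ) ≤ E := by exact_mod_cast hE2
  have hlogE : 0 < Real.log E := Real.log_pos (by linarith)
  set η₀ : ℝ := - Real.log x / Real.log E with hη₀d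
  have hη₀ : 0 < η₀ := div_pos (neg_pos.2 (Real.log_neg hx0 hx1)) hlogE
  refine ⟨min η₀ (1 / 4), lt_min hη₀ (by norm_num), 64 * A / x + 32 * A, fun n => ?_⟩
  have hη4 : min η₀ (1 / 4) ≤ 1 / 4 := min_le_right _ _
  rcases Nat.eq_zero_or_pos n with rfl | hn
  · rw [h0, Nat.cast_zero, Real.zero_rpow (by linarith), mul_zero]
  set l := Nat.log E n with hl
  have hl1 : E ^ l ≤ n := Nat.pow_log_le_self E hn.ne'
  have hl2 : n < E ^ (l + 1) := Nat.lt_pow_succ_log_self (by omega) n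
  have hd : 0 < Q ^ l * 256 ^ l := by positivity
  set y := n / (Q ^ l * 256 ^ l) with hy
  have hy1 : 256 ^ l ≤ y := by
    rw [hy, Nat.le_div_iff_mul_le hd]
    calc 256 ^ l * (Q ^ l * 256 ^ l) = (Q * 65536) ^ l := by
          rw [mul_pow, show (65536 : ℕ) = 256 * 256 by norm_num, mul_pow]; ring
      _ ≤ E ^ l := Nat.pow_le_pow_left hEQ l
      _ ≤ n := hl1
  have hs1 : 16 ^ l ≤ Nat.sqrt y := by
    rw [Nat.le_sqrt]
    calc 16 ^ l * 16 ^ l = 256 ^ l := by rw [← mul_pow]; norm_num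
      _ ≤ y := hy1
  have hs0 : 1 ≤ Nat.sqrt y := le_trans (Nat.one_le_pow _ _ (by norm_num)) hs1
  have hs2 : y < (Nat.sqrt y + 1) * (Nat.sqrt y + 1) := Nat.lt_succ_sqrt y
  have hs3 : Nat.sqrt y * Nat.sqrt y ≤ y := Nat.sqrt_le y
  have hn1 : n < Q ^ l * 256 ^ l * (y + 1) := Nat.lt_mul_div_succ n hd
  have hn2 : n ≤ Q ^ l * (16 ^ l * (Nat.sqrt y + 1)) ^ 2 := by
    calc n ≤ Q ^ l * 256 ^ l * (y + 1) := hn1.le
      _ ≤ Q ^ l * 256 ^ l * ((Nat.sqrt y + 1) * (Nat.sqrt y + 1)) := Nat.mul_le_mul_left _ hs2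
      _ = _ := by
          rw [show (256 : ℕ) = 16 * 16 by norm_num, mul_pow]; ring
  have key := H l (Nat.sqrt y + 1) n (by omega) hn2
  set u : ℝ := (16 : ℝ) ^ l * ((Nat.sqrt y + 1 : ℕ) : ℝ) with hu
  have hu0 : 0 ≤ u := by positivity
  have hnr : (1 : ℝ) ≤ n := by exact_mod_cast hn
  have hn0 : (0 : ℝ) < n := by linarith
  -- `u ^ 2 * Q ^ l ≤ 4 n`
  have hu2 : u ^ 2 * (Q : ℝ) ^ l ≤ 4 * n := by
    have h1 : (16 ^ l * (Nat.sqrt y + 1)) ^ 2 * Q ^ l ≤ 4 * n := by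
      have h2 : (Nat.sqrt y + 1) ^ 2 ≤ 4 * y := by nlinarith
      calc (16 ^ l * (Nat.sqrt y + 1)) ^ 2 * Q ^ l = (Nat.sqrt y + 1) ^ 2 * (Q ^ l * 256 ^ l) := by
            rw [show (256 : ℕ) = 16 * 16 by norm_num, mul_pow 16 16]; ring
        _ ≤ 4 * y * (Q ^ l * 256 ^ l) := Nat.mul_le_mul_right _ h2
        _ = 4 * (n / (Q ^ l * 256 ^ l) * (Q ^ l * 256 ^ l)) := by rw [hy]; ring
        _ ≤ 4 * n := Nat.mul_le_mul_left _ (Nat.div_mul_le_self _ _)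
    rw [hu]
    exact_mod_cast h1
  have hQl : (1 : ℝ) ≤ (Q : ℝ) ^ l := one_le_pow₀ hQr
  have hu3 : u ^ 2 ≤ 4 * n := le_trans (le_mul_of_one_le_right (by positivity) hQl) hu2
  -- the first term
  have e1 : u ^ 6 * σ ^ l ≤ 64 * (n : ℝ) ^ 3 * x ^ l := by
    have h1 : (u ^ 2 * (Q : ℝ) ^ l) ^ 3 ≤ (4 * n) ^ 3 := pow_le_pow_left₀ (by positivity) hu2 3
    have h2 : σ ^ l = x ^ l * ((Q : ℝ) ^ l) ^ 3 := by
      rw [hx, div_pow, ← pow_mul, ← pow_mul, mul_comm 3 l, div_mul_cancel₀]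
      positivity
    rw [h2]
    calc u ^ 6 * (x ^ l * ((Q : ℝ) ^ l) ^ 3) = (u ^ 2 * (Q : ℝ) ^ l) ^ 3 * x ^ l := by ring
      _ ≤ (4 * n) ^ 3 * x ^ l := by gcongr
      _ = _ := by ring
  have e2 : x ^ l ≤ (n : ℝ) ^ (-η₀) / x := by
    rw [le_div_iff₀ hx0, ← pow_succ]
    have h1 : (n : ℝ) ^ η₀ ≤ ((E : ℝ) ^ (l + 1)) ^ η₀ := by
      apply Real.rpow_le_rpow hn0.le _ hη₀.le
      exact_mod_cast hl2.le
    have h2 : ((E : ℝ) ^ (l + 1)) ^ η₀ = (x ^ (l + 1))⁻¹ := by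
      have hE0 : (0 : ℝ) < E := by linarith
      rw [← Real.rpow_natCast, ← Real.rpow_mul hE0.le, Real.rpow_def_of_pos hE0,
        ← Real.exp_log (pow_pos hx0 (l + 1)), ← Real.exp_neg, Real.log_pow, hη₀d]
      congr 1
      field_simp
    rw [h2] at h1
    rw [Real.rpow_neg hn0.le]
    have h3 : 0 < (n : ℝ) ^ η₀ := Real.rpow_pos_of_pos hn0 _
    rw [le_inv_comm₀ (pow_pos hx0 _) h3]
    exact h1
  -- the second term
  have e3 : u ^ 5 ≤ 32 * (n : ℝ) ^ (5 / 2 : ℝ) := by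
    have h1 : u ≤ 2 * (n : ℝ) ^ (1 / 2 : ℝ) := by
      rw [← Real.sqrt_eq_rpow]
      have h2 : (2 * √(n : ℝ)) ^ 2 = 4 * n := by
        rw [mul_pow, Real.sq_sqrt hn0.le]; norm_num
      have h3 : 0 ≤ 2 * √(n : ℝ) := by positivity
      exact le_of_sq_le_sq (by rw [h2]; exact hu3) h3
    calc u ^ 5 ≤ (2 * (n : ℝ) ^ (1 / 2 : ℝ)) ^ 5 := pow_le_pow_left₀ hu0 h1 5
      _ = 32 * (n : ℝ) ^ (5 / 2 : ℝ) := by
          rw [mul_pow, ← Real.rpow_natCast ((n : ℝ) ^ (1 / 2 : ℝ)) 5, ← Real.rpow_mul hn0.le]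
          norm_num
  have e4 : B ^ l ≤ (n : ℝ) ^ (1 / 4 : ℝ) := by
    have h1 : (B ^ l) ^ 4 ≤ n := by
      calc (B ^ l) ^ 4 = (B ^ 4) ^ l := by ring
        _ ≤ (E : ℝ) ^ l := pow_le_pow_left₀ (by positivity) hEB l
        _ ≤ n := by exact_mod_cast hl1
    have h2 : B ^ l = ((B ^ l) ^ 4) ^ (1 / 4 : ℝ) := by
      rw [← Real.rpow_natCast (B ^ l) 4, ← Real.rpow_mul (by positivity)]
      norm_num
    rw [h2]
    exact Real.rpow_le_rpow (by positivity) h1 (by norm_num)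
  have e5 : (n : ℝ) ^ 3 * (n : ℝ) ^ (-η₀) ≤ (n : ℝ) ^ (3 - min η₀ (1 / 4)) := by
    rw [← Real.rpow_natCast (n : ℝ) 3, ← Real.rpow_add hn0]
    apply Real.rpow_le_rpow_of_exponent_le hnr
    have := min_le_left η₀ (1 / 4)
    push_cast
    linarith
  have e6 : (n : ℝ) ^ (5 / 2 : ℝ) * (n : ℝ) ^ (1 / 4 : ℝ) ≤ (n : ℝ) ^ (3 - min η₀ (1 / 4)) := by
    rw [← Real.rpow_add hn0]
    apply Real.rpow_le_rpow_of_exponent_le hnr
    linarith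
  calc (cost n : ℝ) ≤ A * u ^ 6 * σ ^ l + A * u ^ 5 * B ^ l := key
    _ = A * (u ^ 6 * σ ^ l) + A * (u ^ 5 * B ^ l) := by ring
    _ ≤ A * (64 * (n : ℝ) ^ 3 * ((n : ℝ) ^ (-η₀) / x)) +
        A * (32 * (n : ℝ) ^ (5 / 2 : ℝ) * (n : ℝ) ^ (1 / 4 : ℝ)) := by
        have e7 : u ^ 6 * σ ^ l ≤ 64 * (n : ℝ) ^ 3 * ((n : ℝ) ^ (-η₀) / x) :=
          e1.trans (by gcongr)
        have e8 : u ^ 5 * B ^ l ≤ 32 * (n : ℝ) ^ (5 / 2 : ℝ) * (n : ℝ) ^ (1 / 4 : ℝ) := by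
          gcongr
        exact add_le_add (mul_le_mul_of_nonneg_left e7 hA) (mul_le_mul_of_nonneg_left e8 hA)
    _ = 64 * A / x * ((n : ℝ) ^ 3 * (n : ℝ) ^ (-η₀)) +
        32 * A * ((n : ℝ) ^ (5 / 2 : ℝ) * (n : ℝ) ^ (1 / 4 : ℝ)) := by ring
    _ ≤ 64 * A / x * (n : ℝ) ^ (3 - min η₀ (1 / 4)) +
        32 * A * (n : ℝ) ^ (3 - min η₀ (1 / 4)) := by
        gcongr
    _ = _ := by ring

end Pool.Agent.U83.SP.ASY
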